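import Pool.Agent.X55.Fam.Adm

/-!
# Almost primes in both Oppermann intervals with prescribed digital functions

Let `S` be a strongly `b`-additive function with values in a finite abelian group `G` (for example the sum of the
digits in base `b`, or any vector of numbers of occurrences of nonzero digits, modulo some integers), which is not
degenerate: no nontrivial character of the group makes it a function of the residue of `n` modulo `b - 1`.
Let `k ≥ 1` and `W = (2 k)!`. We consider the `2 k` numbers `N ^ 2 + (n + j W)` and `N ^ 2 - (n + j W)`, `0 ≤ j < k`;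
for `n + k W ≤ N` the former are `k` numbers of the interval `[N ^ 2, N ^ 2 + N]` and the latter are `k` numbers of
`[N ^ 2 - N, N ^ 2]`, symmetric to them. The number of the `n` in an interval `(M, M + H]` with `S n = g` for which all the
`2 k` numbers have a bounded number of prime factors, all greater than `H ^ δ`, has the expected order of magnitude,
and the number of those for which all of them are primes is at most of this order; the constants do not depend on `N`.
The number of those for which none of them has a prime factor up to `y` is given by an asymptotic formula, uniformly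
in `N`.
The proof combines a sieve which is uniform in the removed residue classes and the exponential sums of digital
functions (in the starting files), over the blocks of a short interval.
-/

set_option autoImplicit false

namespace Pool.Agent.Results.MP_1e9cc8_nt.DigitalFunctions

open Finset Pool.Agent.X55.Forms

/-- the coefficients of the `2 k` forms -/
def ca (k : ℕ) : Fin (k + k) → ℤ := Fin.append (fun _ => 1) (fun _ => -1)

/-- the constants of the `2 k` forms: the forms are `N ^ 2 + (n + j W)` and `N ^ 2 - (n + j W)` for `j < k`, where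
`W = (2 k)!` -/
def cb (k N : ℕ) : Fin (k + k) → ℤ :=
  Fin.append (fun j => (N : ℤ) ^ 2 + j * ((2 * k).factorial : ℤ)) (fun j => (N : ℤ) ^ 2 - j * ((2 * k).factorial : ℤ))

lemma ca_ne (k : ℕ) (i : Fin (k + k)) : ca k i ≠ 0 := by
  unfold ca
  refine Fin.addCases (fun j => ?_) (fun j => ?_) i
  · rw [Fin.append_left]
    norm_num
  · rw [Fin.append_right]
    norm_num

lemma adm (k N : ℕ) : Admissible (ca k) (cb k N) := adm_sym k _ _ (by simp)

theorem result : ∀ (G : Type) [AddCommGroup G] [Fintype G] (b : ℕ) (S : ℕ → G), 2 ≤ b → Digital b S → ∀ k : ℕ, 1 ≤ k →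
    (∀ B : ℕ, ∃ (r : ℕ) (δ c C : ℝ) (H₀ : ℕ), 0 < δ ∧ 0 < c ∧ 0 < C ∧
      ∀ H : ℕ, H₀ ≤ H → ∀ (N : ℕ),  ∀ (M : ℕ) (g : G), M + H + k * (2 * k).factorial ≤ N → 
      Bounds (ca k) (cb k N) H r δ c C B M H (fun n => S n = g) (H / Fintype.card G)) ∧
    -- the asymptotic formula
    (∀ η : ℝ, 0 < η → ∃ (δ : ℝ) (H₀ : ℕ), 0 < δ ∧
      ∀ H : ℕ, H₀ ≤ H → ∀ (N : ℕ),  ∀ (M : ℕ) (g : G), M + H + k * (2 * k).factorial ≤ N → 
      ∀ y : ℕ, 3 ≤ y → (y : ℝ) ≤ (H : ℝ) ^ δ →
      Rough (ca k) (cb k N) η y M H (fun n => S n = g) (H / Fintype.card G)) := by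
  intro G _ _ b S hb hS k hk
  refine ⟨fun B => ?_, fun η hη => ?_⟩
  · obtain ⟨r, δ, c, C, H₀, hδ, hc, hC, h⟩ := digital b hb S hS (k + k) (by omega) B
    refine ⟨r, δ, c, C, H₀, hδ, hc, hC, ?_⟩
    intro H hH N  M g _
    exact h H hH (ca k) (cb k N) (ca_ne k) (adm k N) M g
  · obtain ⟨δ, H₀, hδ, h⟩ := digitalA b hb S hS (k + k) (by omega) η hη
    refine ⟨δ, H₀, hδ, ?_⟩
    intro H hH N  M g _ y hy hyH
    exact h H hH (ca k) (cb k N) (adm k N) M g y hy hyH

end Pool.Agent.Results.MP_1e9cc8_nt.DigitalFunctions
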