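import Pool.Agent.X119.Steps

set_option autoImplicit false

/-!
# The distances between the primes of Oppermann's intervals

`prime m` is the `m`-th prime (`prime 0 = 2`). For every `ε > 0` there is `C` such that for ALL large `n` and
each of the two intervals `(n² - n, n²]`, `(n², n² + n]` all but at most `ε n / log n` of the primes `prime m` in
the interval satisfy for ALL `k ≥ 1` with `C k log n ≤ n` simultaneously: the distance to the `k`-th next prime
and the distance to the `k`-th previous prime lie between `k log n / C` and `C k log n`.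
-/

namespace Pool.Agent.Results.MP_1e9cc8_nt.DistancesInBothIntervals

open Finset Filter

/-- The primes in increasing order, `prime 0 = 2`. -/
noncomputable def prime (m : ℕ) : ℕ := Nat.nth Nat.Prime m

/-- For all `k ≥ 1` with `C k log n ≤ Y` the distances of the `m`-th prime to the `k`-th prime after and to the
`k`-th prime before it lie between `k log n / C` and `C k log n`. -/
def Uniform (C : ℝ) (n Y m : ℕ) : Prop :=
  ∀ k : ℕ, 1 ≤ k → C * k * Real.log n ≤ Y →
    (k * Real.log n / C ≤ (prime (m + k) : ℝ) - prime m ∧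
      (prime (m + k) : ℝ) - prime m ≤ C * k * Real.log n) ∧
    k ≤ m ∧
    (k * Real.log n / C ≤ (prime m : ℝ) - prime (m - k) ∧
      (prime m : ℝ) - prime (m - k) ≤ C * k * Real.log n)

lemma uniform_of_dist {C : ℝ} (hC : 1 ≤ C) {n N Y m : ℕ} (hn : 0 < Real.log n)
    (h1 : Real.log n ≤ Real.log N) (h2 : Real.log N ≤ 2 * Real.log n)
    (h : Pool.Agent.X119.Steps.Dist C N Y m) : Uniform (2 * C) n Y m := by
  intro k hk hkY
  have hkr : (1 : ℝ) ≤ k := by exact_mod_cast hk
  have hC0 : 0 < C := by linarith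
  have e1 : C * k * Real.log N ≤ 2 * C * k * Real.log n := by
    calc C * k * Real.log N ≤ C * k * (2 * Real.log n) := by gcongr
      _ = _ := by ring
  have e2 : k * Real.log n / (2 * C) ≤ k * Real.log N / C := by
    rw [div_le_div_iff₀ (by positivity) hC0]
    calc k * Real.log n * C ≤ k * Real.log N * C := by gcongr
      _ ≤ k * Real.log N * (2 * C) := by
        have : 0 ≤ k * Real.log N := by
          have : 0 < Real.log N := by linarith
          positivity
        nlinarith
  obtain ⟨⟨a1, a2⟩, a3, a4, a5⟩ := h k hk (e1.trans hkY)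
  exact ⟨⟨e2.trans a1, a2.trans e1⟩, a3, e2.trans a4, a5.trans e1⟩

/-- **Oppermann's intervals.** -/
theorem result (ε : ℝ) (hε : 0 < ε) :
    ∃ C : ℝ, 1 ≤ C ∧ ∀ᶠ n : ℕ in atTop, ∀ N : ℕ, (N = n ^ 2 - n ∨ N = n ^ 2) →
      ({m : ℕ | N < prime m ∧ prime m ≤ N + n ∧ ¬ Uniform C n n m}.ncard : ℝ) ≤ ε * n / Real.log n := by
  obtain ⟨C, hC, h⟩ := Pool.Agent.X119.Steps.dist (1 / 3) (by norm_num) (by norm_num) ε hε
  refine ⟨2 * C, by linarith, ?_⟩
  obtain ⟨X₀, hX₀⟩ := eventually_atTop.1 h
  filter_upwards [eventually_ge_atTop (max X₀ 3)] with n hn N hN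
  have hn0 : X₀ ≤ n := (le_max_left _ _).trans hn
  have hn3 : 3 ≤ n := (le_max_right _ _).trans hn
  have hN1 : n ≤ N := by
    rcases hN with rfl | rfl
    · have : 2 * n ≤ n ^ 2 := by nlinarith
      omega
    · nlinarith
  have hN2 : N ≤ n ^ 2 := by
    rcases hN with rfl | rfl
    · omega
    · exact le_rfl
  have hnr : (3 : ℝ) ≤ n := by exact_mod_cast hn3
  have hN1r : (n : ℝ) ≤ N := by exact_mod_cast hN1
  have hN2r : (N : ℝ) ≤ (n : ℝ) ^ 2 := by exact_mod_cast hN2
  have hl0 : 0 < Real.log n := Real.log_pos (by linarith)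
  have hl1 : Real.log n ≤ Real.log N := Real.log_le_log (by linarith) hN1r
  have hl2 : Real.log N ≤ 2 * Real.log n := by
    have := Real.log_le_log (by linarith) hN2r
    rw [Real.log_pow] at this
    push_cast at this
    exact this
  have hpow : (N : ℝ) ^ ((1 : ℝ) / 3) ≤ n := by
    calc (N : ℝ) ^ ((1 : ℝ) / 3) ≤ ((n : ℝ) ^ 2) ^ ((1 : ℝ) / 3) := by
          apply Real.rpow_le_rpow (by linarith) hN2r (by norm_num)
      _ = (n : ℝ) ^ ((2 : ℝ) / 3) := by
          rw [← Real.rpow_natCast, ← Real.rpow_mul (by linarith)]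
          norm_num
      _ ≤ (n : ℝ) ^ (1 : ℝ) := Real.rpow_le_rpow_of_exponent_le (by linarith) (by norm_num)
      _ = n := Real.rpow_one _
  have h3 := hX₀ N (hn0.trans hN1) n hpow hN1
  refine le_trans ?_ (h3.trans ?_)
  · refine Nat.cast_le.2 ?_
    apply Set.ncard_le_ncard
    · rintro m ⟨m1, m2, m3⟩
      exact ⟨m1, m2, fun hD => m3 (uniform_of_dist hC hl0 hl1 hl2 hD)⟩
    · apply (Set.finite_Iic (N + n)).subset
      rintro m ⟨m1, m2, -⟩
      have : m ≤ Pool.Agent.X119.Steps.pr m := by
        have h1 := Pool.Agent.X119.Steps.count_pr m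
        have h2 := Nat.count_le (p := Nat.Prime) (n := Pool.Agent.X119.Steps.pr m)
        omega
      exact this.trans m2
  · apply div_le_div_of_nonneg_left (by positivity) hl0 hl1

end Pool.Agent.Results.MP_1e9cc8_nt.DistancesInBothIntervals
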