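import Pool.Agent.X220.FP.Cor
import Pool.Agent.X220.FP.Alg

/-!
# Almost prime tuples of every admissible pattern with prescribed fractional parts in short intervals

Let `P_1, …, P_s` be real polynomials of degree at most `k ≥ 1` whose vector of the coefficients of `x ^ k` is of finite
type: the distance of `h_1 α_1 + … + h_s α_s` to the nearest integer is at least `c₀ / |h| ^ τ` for all nonzero integral
vectors `h` (for example `α_1, …, α_s` are algebraic and `1, α_1, …, α_s` are linearly independent over the rational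
numbers). For every admissible `m`-tuple of shifts `a_1, …, a_m` we consider the translates `n + a_1, …, n + a_m` for the
integers `n` of an ARBITRARY short interval `(M, M + H]` for which all the fractional parts of `P_i(n) - u_i` are less than
`ρ_i`, where the `ρ_i` may be as small as `H ^ (-δ)`.
* If `M + H ≤ H ^ B` and `|a_i| ≤ H ^ B`, where `B` is arbitrary, the number of the `n` for which all the translates have a
  bounded number of prime factors, all greater than `H ^ δ`, has the expected order of magnitude.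
* The number of the `n` for which all of them are primes is at most of this order.
* The number of the `n` for which they have no prime factor up to `y` is given by an asymptotic formula.

All this is uniform in the polynomials, in `M`, in the boxes, and in the shifts. The proof combines a sieve which is uniform
in the removed residue classes (in the starting files), Weyl's inequality, and Liouville's inequality for norms.
-/

set_option autoImplicit false

namespace Pool.Agent.Results.MP_1e9cc8_nt.FractionalParts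

open Finset Polynomial

/-- the vector `α` is of finite type, with the constants `c₀` and `τ` -/
def FiniteType {s : ℕ} (c₀ : ℝ) (τ : ℕ) (α : Fin s → ℝ) : Prop :=
  ∀ h : Fin s → ℤ, h ≠ 0 → ∀ a : ℤ, c₀ ≤ (∑ i, |(h i : ℝ)|) ^ τ * |(∑ i, h i * α i) - a|

/-- all the fractional parts of `P_i(n) - u_i` are less than `ρ_i` -/
def InBox {s : ℕ} (P : Fin s → ℝ[X]) (u ρ : Fin s → ℝ) (n : ℕ) : Prop :=
  ∀ i, Int.fract ((P i).eval (n : ℝ) - u i) < ρ i

/-- `m ≠ 0` has at most `r` prime factors, counted with multiplicity, all of them greater than `x`. -/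
def AlmostPrime (r : ℕ) (x : ℝ) (m : ℕ) : Prop :=
  m ≠ 0 ∧ m.primeFactorsList.length ≤ r ∧ ∀ q : ℕ, q.Prime → q ∣ m → x < q

/-- the tuple is admissible: the translates do not cover all the residues modulo a prime number -/
def Admissible {m : ℕ} (a : Fin m → ℤ) : Prop :=
  ∀ q : ℕ, q.Prime → ∃ n : ℕ, ∀ i, ¬ (q : ℤ) ∣ n + a i

/-- the number of the `n` in `(M, M + H]` with the property `R` for which all the translates are almost primes -/
noncomputable def almost {m : ℕ} (a : Fin m → ℤ) (r : ℕ) (x : ℝ) (M H : ℕ) (R : ℕ → Prop) : ℕ :=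
  Set.ncard {n : ℕ | M < n ∧ n ≤ M + H ∧ R n ∧ ∀ i, AlmostPrime r x ((n : ℤ) + a i).natAbs}

/-- the number of the `n` in `(M, M + H]` with the property `R` for which all the translates are primes -/
noncomputable def primes {m : ℕ} (a : Fin m → ℤ) (M H : ℕ) (R : ℕ → Prop) : ℕ :=
  Set.ncard {n : ℕ | M < n ∧ n ≤ M + H ∧ R n ∧ ∀ i, ((n : ℤ) + a i).natAbs.Prime}

/-- the number of the `n` in `(M, M + H]` with the property `R` for which the translates have no prime factor up to `y` -/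
noncomputable def rough {m : ℕ} (a : Fin m → ℤ) (y M H : ℕ) (R : ℕ → Prop) : ℕ :=
  Set.ncard {n : ℕ | M < n ∧ n ≤ M + H ∧ R n ∧ ∀ q : ℕ, q.Prime → q ≤ y → ∀ i, ¬ (q : ℤ) ∣ n + a i}

/-- the product over the primes `q ≤ y` of `1 - ν(q) / q`, where `ν(q)` is the number of the residues `n` modulo `q` for
which one of the translates is divisible by `q` -/
noncomputable def V {m : ℕ} (a : Fin m → ℤ) (y : ℕ) : ℝ :=
  ∏ q ∈ (Icc 1 y).filter Nat.Prime, (1 - (Set.ncard {n : ℕ | n < q ∧ ∃ i, (q : ℤ) ∣ n + a i} : ℝ) / q)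

/-- the bounds for the interval `(M, M + H]` and the property `R`, with the expected number `X` -/
def Bounds {m : ℕ} (a : Fin m → ℤ) (T r : ℕ) (δ c c' C : ℝ) (B M H : ℕ) (R : ℕ → Prop) (X : ℝ) : Prop :=
  (M + H ≤ T ^ B → (∀ i, (a i).natAbs ≤ T ^ B) → c * (X * V a T) ≤ almost a r ((T : ℝ) ^ δ) M H R ∧
    c' * X / Real.log T ^ m ≤ almost a r ((T : ℝ) ^ δ) M H R) ∧
  (primes a M H R : ℝ) ≤ C * (X * V a T)

/-- the asymptotic formula for the interval `(M, M + H]` and the property `R`, with the expected number `X` -/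
def Rough {m : ℕ} (a : Fin m → ℤ) (η : ℝ) (M H y : ℕ) (R : ℕ → Prop) (X : ℝ) : Prop :=
  |(rough a y M H R : ℝ) - X * V a y| ≤ η * (X * V a y)

lemma V_eq {m : ℕ} (a : Fin m → ℤ) (y : ℕ) : Pool.Agent.X55.Fam.VL (fun _ => 1) a y = V a y := by
  unfold Pool.Agent.X55.Fam.VL V
  simp only [one_mul]

lemma adm {m : ℕ} {a : Fin m → ℤ} (h : Admissible a) (q : ℕ) (hq : q.Prime) :
    ∃ n : ℕ, ∀ i, ¬ (q : ℤ) ∣ (fun _ : Fin m => (1 : ℤ)) i * (n : ℤ) + a i := by
  obtain ⟨n, hn⟩ := h q hq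
  exact ⟨n, fun i => by simpa using hn i⟩

lemma conv {m : ℕ} {a : Fin m → ℤ} {T r : ℕ} {δ c C c1 : ℝ} {B M H : ℕ} {R : ℕ → Prop} {X : ℝ} (hT : 3 ≤ T)
    (hc : 0 < c) (hX : 0 ≤ X) (hlo : c1 / Real.log T ^ m ≤ V a T)
    (h : Pool.Agent.X55.Fam.BothL (fun _ => 1) a T r δ c C B M H R X) : Bounds a T r δ c (c * c1) C B M H R X := by
  obtain ⟨h1, h2⟩ := h
  unfold Pool.Agent.X55.Fam.LoT at h1
  unfold Pool.Agent.X55.Fam.UpL at h2
  rw [V_eq] at h1 h2
  simp only [one_mul] at h1 h2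
  refine ⟨fun hMH ha => ?_, h2⟩
  have k1 := h1 hMH (fun i => by
    rw [Int.natAbs_one]
    exact Nat.one_le_pow _ _ (by omega)) ha
  refine ⟨k1, le_trans ?_ k1⟩
  calc c * c1 * X / Real.log T ^ m = c * (X * (c1 / Real.log T ^ m)) := by ring
    _ ≤ _ := by gcongr

theorem result : (∀ (m s k τ : ℕ) (c₀ : ℝ), 1 ≤ m → 1 ≤ k → 0 < c₀ →
    (∀ B : ℕ, ∃ (r : ℕ) (δ c c' C : ℝ) (H₀ : ℕ), 0 < δ ∧ 0 < c ∧ 0 < c' ∧ 0 < C ∧
      ∀ H : ℕ, H₀ ≤ H → ∀ P : Fin s → ℝ[X], (∀ i, (P i).natDegree ≤ k) → FiniteType c₀ τ (fun i => (P i).coeff k) →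
      ∀ u ρ : Fin s → ℝ, (∀ i, (H : ℝ) ^ (-δ) ≤ ρ i ∧ ρ i ≤ 1) → ∀ a : Fin m → ℤ, Admissible a → ∀ M : ℕ,
      Bounds a H r δ c c' C B M H (InBox P u ρ) (H * ∏ i, ρ i)) ∧
    (∀ η : ℝ, 0 < η → ∃ (δ : ℝ) (H₀ : ℕ), 0 < δ ∧
      ∀ H : ℕ, H₀ ≤ H → ∀ P : Fin s → ℝ[X], (∀ i, (P i).natDegree ≤ k) → FiniteType c₀ τ (fun i => (P i).coeff k) →
      ∀ u ρ : Fin s → ℝ, (∀ i, (H : ℝ) ^ (-δ) ≤ ρ i ∧ ρ i ≤ 1) → ∀ a : Fin m → ℤ, Admissible a → ∀ M y : ℕ, 3 ≤ y →
      (y : ℝ) ≤ (H : ℝ) ^ δ → Rough a η M H y (InBox P u ρ) (H * ∏ i, ρ i))) ∧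
    -- algebraic numbers
    (∀ (s : ℕ) (α : Fin s → ℝ), (∀ i, IsAlgebraic ℚ (α i)) →
      (∀ (h : Fin s → ℤ) (a : ℤ), ∑ i, (h i : ℝ) * α i = a → h = 0) →
      ∃ (c₀ : ℝ) (τ : ℕ), 0 < c₀ ∧ FiniteType c₀ τ α) := by
  classical
  refine ⟨fun m s k τ c₀ hm hk hc₀ => ⟨?_, ?_⟩, fun s α hα hind => Pool.Agent.X220.FP.liouville_vec s α hα hind⟩
  · intro B
    obtain ⟨r, δ, c, C, H₀, hδ, hc, hC, h⟩ := Pool.Agent.X220.FP.fp_lin s k τ hk c₀ hc₀ m hm B
    obtain ⟨c1, hc1, hlo⟩ := Pool.Agent.X55.Fam.VQ_low m hm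
    refine ⟨r, δ, c, c * c1, C, max H₀ 3, hδ, hc, by positivity, hC, ?_⟩
    intro H hH P hP hFT u ρ hρ a ha M
    have h3 : 3 ≤ H := (le_max_right _ _).trans hH
    have hX : 0 ≤ (H : ℝ) * ∏ i, ρ i := mul_nonneg (Nat.cast_nonneg _)
      (prod_nonneg fun i _ => le_trans (by positivity) (hρ i).1)
    exact conv h3 hc hX (by
      rw [← V_eq, Pool.Agent.X55.Fam.VL_eq]
      exact hlo _ (Pool.Agent.X55.Fam.adm_lin (fun _ => 1) a (adm ha)) H h3)
      (h H ((le_max_left _ _).trans hH) (fun _ => 1) a (fun _ => one_ne_zero) (adm ha) P hP hFT u ρ hρ M)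
  · intro η hη
    obtain ⟨δ, H₀, hδ, h⟩ := Pool.Agent.X220.FP.fp_linA s k τ hk c₀ hc₀ m hm η hη
    refine ⟨δ, H₀, hδ, ?_⟩
    intro H hH P hP hFT u ρ hρ a ha M y hy hyH
    have key := h H hH (fun _ => 1) a (adm ha) P hP hFT u ρ hρ M y hy hyH
    unfold Pool.Agent.X55.Fam.AsL at key
    rw [V_eq] at key
    simp only [one_mul] at key
    exact key

end Pool.Agent.Results.MP_1e9cc8_nt.FractionalParts
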